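import Pool.Agent.N431.HN.NE
import Pool.Agent.Y150.Ch.Line

/-!
# Locally virtually nilpotent groups of affine maps have points that are unipotent up to powers
-/

set_option autoImplicit false

open Set

namespace Pool.Agent.N431.HN

open Pool.Agent.W689.Mk (lin hol_add hol_sub hol_inv_apply hol_apply_inv lin_inv_apply lin_mul)
open Pool.Agent.Y150.Ch

variable {Γ E : Type} [Group Γ] [NormedAddCommGroup E] [NormedSpace ℝ E]
  {hol : Γ →* (E ≃ᵃ[ℝ] E)}

/-- the subgroup `F` acts on `H` through a nilpotent group -/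
def NilOn (hol : Γ →* (E ≃ᵃ[ℝ] E)) (F : Subgroup Γ) (H : AffineSubspace ℝ E) : Prop :=
  ∃ n : ℕ, ∀ a ∈ F.lowerCentralSeries n, ∀ q ∈ H, hol a q = q

/-- a group acting nilpotently has a point at which all its elements are unipotent -/
theorem exists_nil [FiniteDimensional ℝ E] {H : AffineSubspace ℝ E} {p₀ : E} (hp : p₀ ∈ H)
    {F : Subgroup Γ} (hinv : ∀ a ∈ F, ∀ q ∈ H, hol a q ∈ H) (hnil : NilOn hol F H) :
    ∃ p ∈ H, ∀ a ∈ F, ∃ k, cond hol a k p := by
  obtain ⟨n, hn⟩ := hnil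
  let V := H.direction × ℝ
  let ρ : F →* Module.End ℝ V :=
    { toFun := fun a =>
        { toFun := fun v => (⟨T hol a.1 v.1.1 + v.2 • dp hol a.1 p₀,
            H.direction.add_mem (dir_T hp (hinv a.1 a.2) v.1.2)
              (H.direction.smul_mem _ (dp_mem (hinv a.1 a.2) hp))⟩, v.2)
          map_add' := by
            intro v w
            refine Prod.ext (Subtype.ext ?_) rfl
            show T hol a.1 (v.1.1 + w.1.1) + (v.2 + w.2) • dp hol a.1 p₀ =
              (T hol a.1 v.1.1 + v.2 • dp hol a.1 p₀) + (T hol a.1 w.1.1 + w.2 • dp hol a.1 p₀)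
            rw [map_add, add_smul]
            abel
          map_smul' := by
            intro c v
            refine Prod.ext (Subtype.ext ?_) rfl
            show T hol a.1 (c • v.1.1) + (c * v.2) • dp hol a.1 p₀ =
              c • (T hol a.1 v.1.1 + v.2 • dp hol a.1 p₀)
            rw [map_smul, smul_add, mul_smul] }
      map_one' := by
        apply LinearMap.ext
        intro v
        refine Prod.ext (Subtype.ext ?_) rfl
        show T hol 1 v.1.1 + v.2 • dp hol 1 p₀ = v.1.1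
        rw [map_one, dp_one, smul_zero, add_zero]
        rfl
      map_mul' := by
        intro a b
        apply LinearMap.ext
        intro v
        refine Prod.ext (Subtype.ext ?_) rfl
        show T hol (a.1 * b.1) v.1.1 + v.2 • dp hol (a.1 * b.1) p₀ =
          T hol a.1 (T hol b.1 v.1.1 + v.2 • dp hol b.1 p₀) + v.2 • dp hol a.1 p₀
        rw [map_mul, dp_mul, map_add, map_smul, smul_add]
        show T hol a.1 (T hol b.1 v.1.1) + _ = _
        abel }
  have hρ1 : ∀ (a : F) (v : V), ((ρ a v).1 : E) = T hol a.1 v.1.1 + v.2 • dp hol a.1 p₀ :=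
    fun a v => rfl
  have hρ2 : ∀ (a : F) (v : V), (ρ a v).2 = v.2 := fun a v => rfl
  obtain ⟨w, hw, hu⟩ := exists_uni (G := F) (fun i => {a : F | (a : Γ) ∈ F.lowerCentralSeries i})
    (fun g => g.2) (fun i z hz g => Subgroup.commutator_mem_commutator hz g.2) n
    (Module.finrank ℝ V) V ρ (LinearMap.snd ℝ H.direction ℝ) le_rfl (fun g v => rfl)
    ⟨(0, 1), one_ne_zero⟩ (by
      intro g hg
      apply LinearMap.ext
      intro v
      refine Prod.ext (Subtype.ext ?_) rfl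
      show T hol g.1 v.1.1 + v.2 • dp hol g.1 p₀ = v.1.1
      have h1 : ∀ q ∈ H, hol g.1 q = hol 1 q := by
        intro q hq
        rw [hn g.1 hg q hq, map_one]
        rfl
      rw [T_congr hp h1 v.1.2]
      have h2 : dp hol g.1 p₀ = 0 := by
        unfold dp
        rw [hn g.1 hg p₀ hp, sub_self]
      rw [h2, smul_zero, add_zero, map_one]
      rfl)
  have hw2 : w.2 ≠ 0 := hw
  refine ⟨p₀ + w.2⁻¹ • w.1.1, ?_, fun a ha => ?_⟩
  · have := AffineSubspace.vadd_mem_of_mem_direction (H.direction.smul_mem w.2⁻¹ w.1.2) hp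
    rwa [vadd_eq_add, add_comm] at this
  · obtain ⟨k, hk⟩ := hu ⟨a, ha⟩
    have hk' := pow_zero_le (Nat.le_succ k) hk
    refine ⟨k, ?_⟩
    have key : ∀ (j : ℕ) (v : V), v.2 = 0 → ((((ρ ⟨a, ha⟩ - 1) ^ j) v).1 : E) =
        ((T hol a - 1) ^ j) v.1.1 ∧ (((ρ ⟨a, ha⟩ - 1) ^ j) v).2 = 0 := by
      intro j
      induction j with
      | zero => exact fun v hv => ⟨rfl, hv⟩
      | succ j ih =>
        intro v hv
        obtain ⟨h1, h2⟩ := ih v hv
        rw [pow_succ', pow_succ', Module.End.mul_apply, Module.End.mul_apply]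
        refine ⟨?_, ?_⟩
        · show T hol a (((ρ ⟨a, ha⟩ - 1) ^ j) v).1 + (((ρ ⟨a, ha⟩ - 1) ^ j) v).2 • dp hol a p₀ -
            (((ρ ⟨a, ha⟩ - 1) ^ j) v).1 = _
          rw [h1, h2, zero_smul, add_zero]
          rfl
        · show (((ρ ⟨a, ha⟩ - 1) ^ j) v).2 - (((ρ ⟨a, ha⟩ - 1) ^ j) v).2 = 0
          exact sub_self _
    rw [pow_succ, Module.End.mul_apply] at hk'
    have h1 := key k ((ρ ⟨a, ha⟩ - 1) w) (sub_self w.2)
    have h2 : (((ρ ⟨a, ha⟩ - 1) w).1 : E) = w.2 • dp hol a (p₀ + w.2⁻¹ • w.1.1) := by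
      show T hol a w.1.1 + w.2 • dp hol a p₀ - w.1.1 = _
      have h3 : hol a (p₀ + w.2⁻¹ • w.1.1) = hol a p₀ + w.2⁻¹ • T hol a w.1.1 := by
        rw [hol_add]
        show hol a p₀ + T hol a (w.2⁻¹ • w.1.1) = _
        rw [map_smul]
      unfold dp
      rw [h3, smul_sub, smul_sub, smul_add, smul_add, smul_smul, smul_smul, mul_inv_cancel₀ hw2,
        one_smul, one_smul]
      abel
    have h3 := h1.1
    rw [hk', h2, map_smul] at h3
    have h4 : w.2 • ((T hol a - 1) ^ k) (dp hol a (p₀ + w.2⁻¹ • w.1.1)) = 0 := h3.symm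
    exact (smul_eq_zero.1 h4).resolve_left hw2

/-- common points of directed families -/
theorem exists_local [FiniteDimensional ℝ E] {H : AffineSubspace ℝ E} {N : Subgroup Γ}
    (M : Submonoid ℕ)
    (h : ∀ F ≤ N, F.FG → ∃ p ∈ H, ∀ a ∈ F, p ∈ Aff hol M H a) :
    ∃ p ∈ H, ∀ a ∈ N, p ∈ Aff hol M H a := by
  classical
  let B : Subgroup Γ → AffineSubspace ℝ E := fun F => ⨅ a ∈ F, Aff hol M H a
  have hB : ∀ F p, p ∈ B F ↔ ∀ a ∈ F, p ∈ Aff hol M H a := by
    intro F p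
    show p ∈ (⨅ a ∈ F, Aff hol M H a) ↔ _
    simp only [← SetLike.mem_coe, AffineSubspace.coe_iInf, mem_iInter]
  let P : ℕ → Prop := fun n => ∃ F ≤ N, F.FG ∧ Module.finrank ℝ (B F).direction = n
  have hP : ∃ n, P n := ⟨_, ⊥, bot_le, ⟨∅, by simp⟩, rfl⟩
  obtain ⟨F, hFN, hF, hFn⟩ := Nat.find_spec hP
  obtain ⟨p, hpH, hp⟩ := h F hFN hF
  refine ⟨p, hpH, fun a ha => ?_⟩
  have hF' : (F ⊔ Subgroup.zpowers a).FG := hF.sup ⟨{a}, by rw [Finset.coe_singleton, Subgroup.zpowers_eq_closure]⟩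
  have hF'N : F ⊔ Subgroup.zpowers a ≤ N := sup_le hFN (by rwa [Subgroup.zpowers_le])
  obtain ⟨q, hqH, hq⟩ := h _ hF'N hF'
  have hle : B (F ⊔ Subgroup.zpowers a) ≤ B F := by
    intro r hr
    rw [hB] at hr ⊢
    exact fun b hb => hr b ((le_sup_left : F ≤ _) hb)
  have h1 := Nat.find_min' hP ⟨_, hF'N, hF', rfl⟩
  rw [← hFn] at h1
  have h2 : (B (F ⊔ Subgroup.zpowers a)).direction = (B F).direction :=
    Submodule.eq_of_le_of_finrank_le (AffineSubspace.direction_le hle) h1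
  have hq' : q ∈ B (F ⊔ Subgroup.zpowers a) := (hB _ _).2 hq
  have hp' : p ∈ B F := (hB _ _).2 hp
  have h3 : p - q ∈ (B (F ⊔ Subgroup.zpowers a)).direction := by
    rw [h2]; exact AffineSubspace.vsub_mem_direction hp' (hle hq')
  have h4 := AffineSubspace.vadd_mem_of_mem_direction h3 hq'
  rw [vadd_eq_add, sub_add_cancel] at h4
  exact (hB _ _).1 h4 a ((le_sup_right : Subgroup.zpowers a ≤ _) (Subgroup.mem_zpowers a))

/-- locally nilpotent -/
theorem common_nil [FiniteDimensional ℝ E] {H : AffineSubspace ℝ E} {p₀ : E} (hp : p₀ ∈ H)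
    {N : Subgroup Γ} (hinv : ∀ a ∈ N, ∀ q ∈ H, hol a q ∈ H)
    (h : ∀ F ≤ N, F.FG → NilOn hol F H) (M : Submonoid ℕ) :
    ∃ p ∈ H, ∀ a ∈ N, p ∈ Aff hol M H a := by
  refine exists_local M fun F hF hfg => ?_
  obtain ⟨p, hpH, hpu⟩ := exists_nil hp (fun a ha => hinv a (hF ha)) (h F hF hfg)
  refine ⟨p, hpH, fun a ha => ⟨hpH, 1, M.one_mem, ?_⟩⟩
  obtain ⟨k, hk⟩ := hpu a ha
  exact ⟨k, by rwa [pow_one]⟩

/-- locally virtually nilpotent -/
theorem common_vnil [FiniteDimensional ℝ E] {H : AffineSubspace ℝ E} {p₀ : E} (hp : p₀ ∈ H)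
    {N : Subgroup Γ} (hinv : ∀ a ∈ N, ∀ q ∈ H, hol a q ∈ H)
    (h : ∀ F ≤ N, F.FG → ∃ F₀ ≤ F, F₀.relIndex F ≠ 0 ∧ NilOn hol F₀ H) :
    ∃ p ∈ H, ∀ a ∈ N, p ∈ Aff hol Pos H a := by
  refine exists_local Pos fun F hF hfg => ?_
  obtain ⟨F₀, hF₀, hind, hnil⟩ := h F hF hfg
  obtain ⟨p, hpH, hpu⟩ := exists_nil hp (fun a ha => hinv a (hF (hF₀ ha))) hnil
  refine ⟨p, hpH, fun a ha => ⟨hpH, ?_⟩⟩
  obtain ⟨n, hn, -, hmem⟩ := Subgroup.exists_pow_mem_of_relIndex_ne_zero hind ha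
  obtain ⟨k, hk⟩ := hpu (a ^ n) hmem.1
  exact ⟨n, by show n ≠ 0; omega, k, hk⟩

end Pool.Agent.N431.HN
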