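import Mathlib

/-!
# Linear actions of groups acting nilpotently: unipotent vectors
-/

set_option autoImplicit false

namespace Pool.Agent.N431.HN

section lin

variable {V : Type} [AddCommGroup V] [Module ℝ V]

/-- a surjective endomorphism of a finite-dimensional quotient is injective -/
theorem desc [FiniteDimensional ℝ V] (S : Submodule ℝ V) (A : Module.End ℝ V)
    (hS : ∀ v ∈ S, A v ∈ S) (hsur : ∀ v, ∃ s ∈ S, ∃ u, v = s + A u) :
    ∀ v, A v ∈ S → v ∈ S := by
  have hS' : S ≤ S.comap A := fun v hv => hS v hv
  have h1 : Function.Surjective (S.mapQ S A hS') := by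
    intro q
    obtain ⟨v, rfl⟩ := Submodule.Quotient.mk_surjective S q
    obtain ⟨s, hs, u, rfl⟩ := hsur v
    refine ⟨Submodule.Quotient.mk u, ?_⟩
    rw [Submodule.mapQ_apply, Submodule.Quotient.mk_add, (Submodule.Quotient.mk_eq_zero S).2 hs,
      zero_add]
  have h2 := LinearMap.injective_iff_surjective.2 h1
  intro v hv
  rw [← Submodule.Quotient.mk_eq_zero S]
  apply h2
  rw [Submodule.mapQ_apply, map_zero]
  exact (Submodule.Quotient.mk_eq_zero S).2 hv

theorem desc_pow [FiniteDimensional ℝ V] (S : Submodule ℝ V) (A : Module.End ℝ V)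
    (hS : ∀ v ∈ S, A v ∈ S) (hsur : ∀ v, ∃ s ∈ S, ∃ u, v = s + A u) (k : ℕ) :
    ∀ v, (A ^ k) v ∈ S → v ∈ S := by
  induction k with
  | zero => exact fun v hv => hv
  | succ k ih =>
    intro v hv
    rw [pow_succ', Module.End.mul_apply] at hv
    exact ih v (desc S A hS hsur _ hv)

/-- Fitting -/
theorem fitting [FiniteDimensional ℝ V] (A : Module.End ℝ V) (v : V) :
    ∃ k : ℕ, ∃ u w : V, v = w + (A ^ (k + 1)) u ∧ (A ^ (k + 1)) w = 0 := by
  obtain ⟨k, hk⟩ := IsArtinian.monotone_stabilizes A.iterateRange
  have h1 : LinearMap.range (A ^ (k + 1)) = LinearMap.range (A ^ ((k + 1) + (k + 1))) :=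
    (hk (k + 1) (by omega)).symm.trans (hk ((k + 1) + (k + 1)) (by omega))
  have h2 : (A ^ (k + 1)) v ∈ LinearMap.range (A ^ ((k + 1) + (k + 1))) := by
    rw [← h1]; exact ⟨v, rfl⟩
  obtain ⟨u, hu⟩ := h2
  refine ⟨k, u, v - (A ^ (k + 1)) u, by abel, ?_⟩
  rw [map_sub, ← hu, pow_add, Module.End.mul_apply, sub_self]

end lin

section rep

variable {G : Type} [Group G]

/-- the vectors on which `g` acts unipotently -/
def Uni {V : Type} [AddCommGroup V] [Module ℝ V] (ρ : G →* Module.End ℝ V) (g : G) (w : V) :
    Prop := ∃ k : ℕ, ((ρ g - 1) ^ k) w = 0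

theorem pow_zero_le {V : Type} [AddCommGroup V] [Module ℝ V] {A : Module.End ℝ V} {k l : ℕ}
    (h : k ≤ l) {w : V} (hw : (A ^ k) w = 0) : (A ^ l) w = 0 := by
  obtain ⟨j, rfl⟩ := Nat.exists_eq_add_of_le h
  rw [add_comm, pow_add, Module.End.mul_apply, hw, map_zero]

theorem pow_mem_le {V : Type} [AddCommGroup V] [Module ℝ V] {A : Module.End ℝ V} {k l : ℕ}
    {S : Submodule ℝ V} (hS : ∀ v ∈ S, A v ∈ S)
    (h : k ≤ l) {w : V} (hw : (A ^ k) w ∈ S) : (A ^ l) w ∈ S := by
  obtain ⟨j, rfl⟩ := Nat.exists_eq_add_of_le h
  induction j with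
  | zero => exact hw
  | succ j ih =>
    rw [← add_assoc, pow_succ', Module.End.mul_apply]
    exact hS _ (ih (Nat.le_add_right _ _))

theorem comm_pow {V : Type} [AddCommGroup V] [Module ℝ V] {A B : Module.End ℝ V}
    (h : ∀ v, A (B v) = B (A v)) (k : ℕ) (v : V) : (A ^ k) (B v) = B ((A ^ k) v) := by
  have h1 : Commute A B := LinearMap.ext fun v => h v
  have h2 := (h1.pow_left k).eq
  exact LinearMap.congr_fun h2 v

/-- the subspace of the vectors on which `A` is nilpotent modulo `S` -/
def Gen {V : Type} [AddCommGroup V] [Module ℝ V] (S : Submodule ℝ V) (A : Module.End ℝ V)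
    (hS : ∀ v ∈ S, A v ∈ S) : Submodule ℝ V where
  carrier := {v | ∃ k : ℕ, (A ^ k) v ∈ S}
  add_mem' := by
    rintro v w ⟨k, hk⟩ ⟨l, hl⟩
    refine ⟨max k l, ?_⟩
    rw [map_add]
    exact S.add_mem (pow_mem_le hS (le_max_left _ _) hk) (pow_mem_le hS (le_max_right _ _) hl)
  zero_mem' := ⟨0, by rw [map_zero]; exact S.zero_mem⟩
  smul_mem' := by
    rintro c v ⟨k, hk⟩
    exact ⟨k, by rw [map_smul]; exact S.smul_mem c hk⟩

/-- A group acting nilpotently on a finite-dimensional space with an invariant functional has a
vector with all elements acting unipotently on it, on which the functional is not zero. -/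
theorem exists_uni (C : ℕ → Set G) (hC0 : ∀ g, g ∈ C 0)
    (hC : ∀ i, ∀ z ∈ C i, ∀ g, z * g * z⁻¹ * g⁻¹ ∈ C (i + 1)) (n : ℕ) :
    ∀ (d : ℕ) (V : Type) [AddCommGroup V] [Module ℝ V]
    [FiniteDimensional ℝ V] (ρ : G →* Module.End ℝ V) (f : V →ₗ[ℝ] ℝ),
    Module.finrank ℝ V ≤ d → (∀ g v, f (ρ g v) = f v) → (∃ w, f w ≠ 0) →
    (∀ g ∈ C n, ρ g = 1) →
    ∃ w, f w ≠ 0 ∧ ∀ g, Uni ρ g w := by
  induction n with
  | zero =>
    intro d V _ _ _ ρ f _ _ hw hn
    obtain ⟨w, hw⟩ := hw
    refine ⟨w, hw, fun g => ⟨1, ?_⟩⟩
    rw [hn g (hC0 g), sub_self, pow_one, LinearMap.zero_apply]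
  | succ n IH =>
    intro d
    induction d with
    | zero =>
      intro V _ _ _ ρ f hd _ hw _
      obtain ⟨w, hw⟩ := hw
      have h0 : Module.finrank ℝ V = 0 := Nat.le_zero.1 hd
      have h1 : Subsingleton V := Module.finrank_zero_iff.1 h0
      rw [Subsingleton.elim w 0, map_zero] at hw
      exact absurd rfl hw
    | succ d ID =>
      intro V _ _ _ ρ f hd hf hw hn
      by_cases hcase : ∃ W : Submodule ℝ V, W ≠ ⊤ ∧ (∀ g, ∀ v ∈ W, ρ g v ∈ W) ∧ ∃ w ∈ W, f w ≠ 0
      · obtain ⟨W, hW, hinv, w, hwW, hfw⟩ := hcase
        let ρ' : G →* Module.End ℝ W :=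
          { toFun := fun g => (ρ g).restrict (hinv g)
            map_one' := by
              apply LinearMap.ext
              intro v
              apply Subtype.ext
              rw [LinearMap.coe_restrict_apply, map_one]
              rfl
            map_mul' := fun g h => by
              apply LinearMap.ext
              intro v
              apply Subtype.ext
              rw [LinearMap.coe_restrict_apply, map_mul]
              rfl }
        have hd' : Module.finrank ℝ W ≤ d := by
          have := Submodule.finrank_lt hW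
          omega
        obtain ⟨w', hw', hu⟩ := ID W ρ' (f.comp W.subtype) hd' (fun g v => hf g v.1)
          ⟨⟨w, hwW⟩, hfw⟩ (fun g hg => by
            apply LinearMap.ext
            intro v
            apply Subtype.ext
            show ρ g v.1 = v.1
            rw [hn g hg]
            rfl)
        refine ⟨w'.1, hw', fun g => ?_⟩
        obtain ⟨k, hk⟩ := hu g
        refine ⟨k, ?_⟩
        have key : ∀ (k : ℕ) (v : W), (((ρ' g - 1) ^ k) v : W).1 = ((ρ g - 1) ^ k) v.1 := by
          intro k
          induction k with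
          | zero => intro v; rfl
          | succ k ih =>
            intro v
            rw [pow_succ', pow_succ', Module.End.mul_apply, Module.End.mul_apply, ← ih v]
            rfl
        rw [← key, hk]
        rfl
      · push Not at hcase
        have hmin : ∀ W : Submodule ℝ V, (∀ g, ∀ v ∈ W, ρ g v ∈ W) → (∃ w ∈ W, f w ≠ 0) → ∀ v, v ∈ W := by
          intro W h1 ⟨w, h2, h3⟩ v
          by_contra h4
          have h5 : W ≠ ⊤ := fun h => h4 (by rw [h]; trivial)
          exact h3 (hcase W h5 h1 w h2)
        clear hcase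
        obtain ⟨w₀, hw₀⟩ := hw
        -- elements of `C n` commute with everything
        have hcom : ∀ z ∈ C n, ∀ (g : G) (v : V), ρ z (ρ g v) = ρ g (ρ z v) := by
          intro z hz g v
          have h1 := hn _ (hC n z hz g)
          have h2 : z * g = (z * g * z⁻¹ * g⁻¹) * (g * z) := by group
          have h3 : ρ (z * g) = ρ (g * z) := by rw [h2, map_mul, h1, one_mul]
          rw [map_mul, map_mul] at h3
          exact LinearMap.congr_fun h3 v
        have hN0 : ∀ g, f.comp (ρ g - 1) = 0 := by
          intro g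
          apply LinearMap.ext
          intro v
          show f (ρ g v - v) = 0
          rw [map_sub, hf, sub_self]
        have hfpow : ∀ (g : G) (k : ℕ) (u : V), f (((ρ g - 1) ^ (k + 1)) u) = 0 := by
          intro g k u
          rw [pow_succ', Module.End.mul_apply]
          exact LinearMap.congr_fun (hN0 g) _
        have hcomN : ∀ z ∈ C n, ∀ (g : G) (v : V), (ρ z - 1) (ρ g v) = ρ g ((ρ z - 1) v) := by
          intro z hz g v
          rw [LinearMap.sub_apply, LinearMap.sub_apply, map_sub, hcom z hz g v]
          rfl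
        have hcomNN : ∀ z ∈ C n, ∀ (g : G) (v : V), (ρ z - 1) ((ρ g - 1) v) = (ρ g - 1) ((ρ z - 1) v) := by
          intro z hz g v
          rw [LinearMap.sub_apply (ρ g), LinearMap.sub_apply (ρ g), map_sub, hcomN z hz g v]
          rfl
        -- central elements are unipotent
        have B1 : ∀ z ∈ C n, ∀ v : V, ∃ k : ℕ, ((ρ z - 1) ^ k) v = 0 := by
          intro z hz
          have h1 := hmin (Gen ⊥ (ρ z - 1) (fun v hv => by
            rw [(Submodule.mem_bot ℝ).1 hv, map_zero]; exact Submodule.zero_mem _)) ?_ ?_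
          · intro v
            obtain ⟨k, hk⟩ := h1 v
            exact ⟨k, (Submodule.mem_bot ℝ).1 hk⟩
          · rintro g v ⟨k, hk⟩
            refine ⟨k, ?_⟩
            rw [comm_pow (fun v => hcomN z hz g v), (Submodule.mem_bot ℝ).1 hk, map_zero]
            exact Submodule.zero_mem _
          · obtain ⟨k, u, w, h2, h3⟩ := fitting (ρ z - 1) w₀
            refine ⟨w, ⟨k + 1, by rw [h3]; exact Submodule.zero_mem _⟩, ?_⟩
            intro h4
            apply hw₀
            rw [h2, map_add, h4, hfpow, add_zero]
        -- the augmentation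
        let I : Submodule ℝ V := Submodule.span ℝ {x | ∃ z ∈ C n, ∃ v, x = (ρ z - 1) v}
        have hIinv : ∀ g, ∀ v ∈ I, ρ g v ∈ I := by
          intro g v hv
          induction hv using Submodule.span_induction with
          | mem x hx =>
            obtain ⟨z, hz, v, rfl⟩ := hx
            rw [← hcomN z hz g v]
            exact Submodule.subset_span ⟨z, hz, _, rfl⟩
          | zero => rw [map_zero]; exact I.zero_mem
          | add x y _ _ hx hy => rw [map_add]; exact I.add_mem hx hy
          | smul c x _ hx => rw [map_smul]; exact I.smul_mem c hx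
        have hIinvN : ∀ g, ∀ v ∈ I, (ρ g - 1) v ∈ I := by
          intro g v hv
          rw [LinearMap.sub_apply]
          exact I.sub_mem (hIinv g v hv) hv
        have hIf : I ≤ LinearMap.ker f := by
          rw [Submodule.span_le]
          rintro x ⟨z, hz, v, rfl⟩
          exact LinearMap.congr_fun (hN0 z) v
        let ρq : G →* Module.End ℝ (V ⧸ I) :=
          { toFun := fun g => I.mapQ I (ρ g) (fun v hv => hIinv g v hv)
            map_one' := by
              apply LinearMap.ext
              intro q
              obtain ⟨v, rfl⟩ := Submodule.Quotient.mk_surjective I q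
              rw [Submodule.mapQ_apply, map_one]
              rfl
            map_mul' := fun g h => by
              apply LinearMap.ext
              intro q
              obtain ⟨v, rfl⟩ := Submodule.Quotient.mk_surjective I q
              rw [Submodule.mapQ_apply, Module.End.mul_apply, Submodule.mapQ_apply,
                Submodule.mapQ_apply, map_mul]
              rfl }
        have hρq : ∀ g v, ρq g (Submodule.Quotient.mk v) = Submodule.Quotient.mk (ρ g v) :=
          fun g v => rfl
        have hfq : ∀ v, I.liftQ f hIf (Submodule.Quotient.mk v) = f v :=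
          fun v => rfl
        obtain ⟨q, hq, hqu⟩ := IH (Module.finrank ℝ (V ⧸ I)) (V ⧸ I) ρq (I.liftQ f hIf) le_rfl
          (by
            intro g q
            obtain ⟨v, rfl⟩ := Submodule.Quotient.mk_surjective I q
            rw [hρq, hfq, hfq, hf])
          ⟨Submodule.Quotient.mk w₀, by rw [hfq]; exact hw₀⟩
          (by
            intro z hz
            apply LinearMap.ext
            intro q
            obtain ⟨v, rfl⟩ := Submodule.Quotient.mk_surjective I q
            rw [hρq, Module.End.one_apply, Submodule.Quotient.eq]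
            exact Submodule.subset_span ⟨z, hz, v, rfl⟩)
        obtain ⟨w, rfl⟩ := Submodule.Quotient.mk_surjective I q
        rw [hfq] at hq
        have hpq : ∀ (g : G) (k : ℕ) (v : V), ((ρq g - 1) ^ k) (Submodule.Quotient.mk v) =
            Submodule.Quotient.mk (((ρ g - 1) ^ k) v) := by
          intro g k
          induction k with
          | zero => intro v; rfl
          | succ k ih =>
            intro v
            rw [pow_succ', pow_succ', Module.End.mul_apply, Module.End.mul_apply, ih v,
              LinearMap.sub_apply, hρq]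
            rfl
        have hwI : ∀ g : G, ∃ k : ℕ, ((ρ g - 1) ^ k) w ∈ I := by
          intro g
          obtain ⟨k, hk⟩ := hqu g
          rw [hpq, Submodule.Quotient.mk_eq_zero] at hk
          exact ⟨k, hk⟩
        -- everything is unipotent modulo `I`
        let W : Submodule ℝ V :=
          { carrier := {v | ∀ g : G, ∃ k : ℕ, ((ρ g - 1) ^ k) v ∈ I}
            add_mem' := by
              intro a b ha hb g
              exact (Gen I (ρ g - 1) (hIinvN g)).add_mem (ha g) (hb g)
            zero_mem' := fun g => (Gen I (ρ g - 1) (hIinvN g)).zero_mem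
            smul_mem' := by
              intro c a ha g
              exact (Gen I (ρ g - 1) (hIinvN g)).smul_mem c (ha g) }
        have hW : ∀ v, v ∈ W := by
          refine hmin W ?_ ⟨w, hwI, hq⟩
          intro h v hv g
          obtain ⟨k, hk⟩ := hv (h⁻¹ * g * h)
          refine ⟨k, ?_⟩
          have h1 : SemiconjBy (ρ h) (ρ (h⁻¹ * g * h) - 1) (ρ g - 1) := by
            show ρ h * (ρ (h⁻¹ * g * h) - 1) = (ρ g - 1) * ρ h
            rw [mul_sub, sub_mul, mul_one, one_mul, ← map_mul, ← map_mul]
            congr 2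
            group
          have h2 := LinearMap.congr_fun (h1.pow_right k).eq v
          rw [Module.End.mul_apply, Module.End.mul_apply] at h2
          rw [← h2]
          exact hIinv h _ hk
        refine ⟨w₀, hw₀, fun g => ?_⟩
        by_contra hnot
        let E : Submodule ℝ V := Gen ⊥ (ρ g - 1) (fun v hv => by
            rw [(Submodule.mem_bot ℝ).1 hv, map_zero]; exact Submodule.zero_mem _)
        let 𝒮 : Set (Submodule ℝ V) := {S | S ≠ ⊤ ∧ E ≤ S ∧ (∀ v ∈ S, (ρ g - 1) v ∈ S) ∧
          ∀ z ∈ C n, ∀ v ∈ S, (ρ z - 1) v ∈ S}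
        have hE : E ∈ 𝒮 := by
          refine ⟨?_, le_rfl, ?_, ?_⟩
          · intro h
            have h1 : w₀ ∈ E := by rw [h]; trivial
            obtain ⟨k, hk⟩ := h1
            exact hnot ⟨k, (Submodule.mem_bot ℝ).1 hk⟩
          · rintro v ⟨k, hk⟩
            refine ⟨k, ?_⟩
            rw [comm_pow (fun v => rfl), (Submodule.mem_bot ℝ).1 hk, map_zero]
            exact Submodule.zero_mem _
          · rintro z hz v ⟨k, hk⟩
            refine ⟨k, ?_⟩
            rw [comm_pow (fun v => (hcomNN z hz g v).symm), (Submodule.mem_bot ℝ).1 hk, map_zero]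
            exact Submodule.zero_mem _
        obtain ⟨S, ⟨hS1, hS2, hS3, hS4⟩, hSmax⟩ :=
          (wellFounded_gt : WellFounded ((· > ·) : Submodule ℝ V → Submodule ℝ V → Prop)).has_min
            𝒮 ⟨E, hE⟩
        have hI : I ≤ S := by
          rw [Submodule.span_le]
          rintro x ⟨z, hz, v, rfl⟩
          by_contra hx
          let S' : Submodule ℝ V := S ⊔ LinearMap.range (ρ z - 1)
          have hlt : S' > S := by
            refine lt_of_le_of_ne le_sup_left ?_
            intro h
            apply hx
            rw [h]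
            exact (le_sup_right : LinearMap.range (ρ z - 1) ≤ S') ⟨v, rfl⟩
          refine hSmax S' ⟨?_, hS2.trans le_sup_left, ?_, ?_⟩ hlt
          · intro htop
            apply hS1
            rw [eq_top_iff]
            intro y _
            obtain ⟨k, hk⟩ := B1 z hz y
            refine desc_pow S (ρ z - 1) (hS4 z hz) ?_ k y (by rw [hk]; exact S.zero_mem)
            intro y
            have hy : y ∈ S' := by rw [htop]; trivial
            obtain ⟨s, hs, t, ⟨u, rfl⟩, rfl⟩ := Submodule.mem_sup.1 hy
            exact ⟨s, hs, u, rfl⟩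
          · intro y hy
            obtain ⟨s, hs, t, ⟨u, rfl⟩, rfl⟩ := Submodule.mem_sup.1 hy
            rw [map_add, ← hcomNN z hz g u]
            exact Submodule.add_mem_sup (hS3 s hs) ⟨_, rfl⟩
          · intro z' hz' y hy
            obtain ⟨s, hs, t, ⟨u, rfl⟩, rfl⟩ := Submodule.mem_sup.1 hy
            rw [map_add, ← hcomNN z hz z' u]
            exact Submodule.add_mem_sup (hS4 z' hz' s hs) ⟨_, rfl⟩
        apply hS1
        rw [eq_top_iff]
        intro y _
        obtain ⟨k, hk⟩ := hW y g
        refine desc_pow S (ρ g - 1) hS3 ?_ k y (hI hk)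
        intro y
        obtain ⟨k, u, w', h2, h3⟩ := fitting (ρ g - 1) y
        refine ⟨w', hS2 ⟨k + 1, by rw [h3]; exact Submodule.zero_mem _⟩, ((ρ g - 1) ^ k) u, ?_⟩
        rw [h2, pow_succ', Module.End.mul_apply]

end rep

end Pool.Agent.N431.HN
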