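import Pool.Agent.N431.HN.Aff

/-!
# A point that is unipotent up to powers suffices
-/

set_option autoImplicit false

open Set

namespace Pool.Agent.N431.HN

open Pool.Agent.W689.Mk (lin hol_add hol_sub hol_inv_apply hol_apply_inv lin_inv_apply lin_mul)
open Pool.Agent.Y150.Ch

variable {Γ E : Type} [Group Γ] [NormedAddCommGroup E] [NormedSpace ℝ E]
  {hol : Γ →* (E ≃ᵃ[ℝ] E)}

/-- if an almost normal subgroup has a point at which its elements are unipotent up to powers, then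
its elements are unipotent up to powers -/
theorem unip_of_point [FiniteDimensional ℝ E] {H : AffineSubspace ℝ E} {p₀ : E} (hp : p₀ ∈ H)
    {K N : Subgroup Γ} (hK : ∀ γ ∈ K, ∀ q ∈ H, hol γ q ∈ H)
    (hstar : ∀ (S : Set E) (p : E), p ∈ S → S ⊆ H → StarConvex ℝ p S →
      (∀ γ ∈ K, ∀ q ∈ S, hol γ q ∈ S) → S = H)
    (hinv : ∀ a ∈ N, ∀ q ∈ H, hol a q ∈ H) (M : Submonoid ℕ)
    (hpt : ∃ p ∈ H, ∀ a ∈ N, p ∈ Aff hol M H a)
    (hnor : ∀ γ ∈ K, ∀ a ∈ N, ∃ m ∈ M, ∃ b ∈ N, ∀ q ∈ H, hol (γ * a ^ m * γ⁻¹) q = hol b q) :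
    ∀ a ∈ N, ∃ m ∈ M, ∃ k, ∀ p ∈ H, cond hol (a ^ m) k p := by
  obtain ⟨p, hpH, hpA⟩ := hpt
  have hS := hstar {q | q ∈ H ∧ ∀ a ∈ N, q ∈ Aff hol M H a} p ⟨hpH, hpA⟩ (fun q hq => hq.1) ?_ ?_
  · intro a ha
    have hall : ∀ q ∈ H, ∃ m ∈ M, ∃ k, cond hol (a ^ m) k q := by
      intro q hq
      have h1 : q ∈ {q | q ∈ H ∧ ∀ a ∈ N, q ∈ Aff hol M H a} := by rw [hS]; exact hq
      exact (h1.2 a ha).2
    let n := Module.finrank ℝ H.direction
    let pt : Option (Fin n) → E := fun o => o.elim p₀ fun i =>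
      p₀ + (Module.finBasis ℝ H.direction i : E)
    have hpt : ∀ o, pt o ∈ H := by
      intro o
      cases o with
      | none => exact hp
      | some i =>
        have := AffineSubspace.vadd_mem_of_mem_direction (Module.finBasis ℝ H.direction i).2 hp
        rw [vadd_eq_add, add_comm] at this
        exact this
    obtain ⟨⟨m, k⟩, hmk⟩ := exists_unif (ι := M × ℕ)
      (fun i o => cond hol (a ^ (i.1 : ℕ)) i.2 (pt o)) (1, 0)
      (fun i j => ⟨(i.1 * j.1, max i.2 j.2), fun o => by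
        rintro (h | h)
        · have := cond_pow hol h j.1 (le_max_left i.2 j.2)
          rw [← pow_mul] at this
          exact this
        · have := cond_pow hol h i.1 (le_max_right i.2 j.2)
          rw [← pow_mul, mul_comm] at this
          exact this⟩)
      (fun o => by
        obtain ⟨m, hm, k, hk⟩ := hall (pt o) (hpt o)
        exact ⟨(⟨m, hm⟩, k), hk⟩)
    let A : AffineSubspace ℝ E :=
      { carrier := {q | cond hol (a ^ (m : ℕ)) k q}
        smul_vsub_vadd_mem' := fun c p q r hp hq hr => cond_aff hol c hp hq hr }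
    have hHA : H ≤ A := le_of_basis hp (hmk none) fun i => hmk (some i)
    exact ⟨m, m.2, k, fun q hq => hHA hq⟩
  · intro q hq s t hs ht hst
    refine ⟨?_, fun a ha => ?_⟩
    · exact H.convex hpH hq.1 hs ht hst
    · exact (Aff hol M H a).convex (hpA a ha) (hq.2 a ha) hs ht hst
  · rintro γ hγ q ⟨hq, hqA⟩
    refine ⟨hK γ hγ q hq, fun a ha => ⟨hK γ hγ q hq, ?_⟩⟩
    obtain ⟨m, hm, b, hb, hab⟩ := hnor γ⁻¹ (K.inv_mem hγ) a ha
    rw [inv_inv] at hab
    obtain ⟨-, m', hm', k, hk⟩ := hqA b hb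
    refine ⟨m * m', M.mul_mem hm hm', k, ?_⟩
    have hbH := hinv b hb
    have h1 : cond hol ((γ⁻¹ * a ^ m * γ) ^ m') k q :=
      cond_congr (pow_eq hab hbH m') (fun q hq => hinv _ (N.pow_mem hb m') q hq) hq hk
    have h2 := cond_conj (δ := γ) hol h1
    have h3 : γ * (γ⁻¹ * a ^ m * γ) ^ m' * γ⁻¹ = a ^ (m * m') := by
      have h4 : γ⁻¹ * a ^ m * γ = γ⁻¹ * a ^ m * (γ⁻¹)⁻¹ := by rw [inv_inv]
      rw [h4, conj_pow, pow_mul]
      group
    rwa [h3] at h2

end Pool.Agent.N431.HN
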